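import Pool.Agent.Helper74.UB.Goals1

/-!
# Project UB, packet HALF
-/

set_option autoImplicit false

namespace Pool.Agent.Helper56.UB

open Finset Equiv Helper28.VF Pool.Agent.Helper74.UB
open scoped Classical

/-- The last place before a change along an orbit. -/
theorem exists_change {D : Type} (f : D → D) (p : D → Prop) (n : ℕ) (d : D) (h0 : p d)
    (hn : ¬ p (f^[n] d)) : ∃ i, p (f^[i] d) ∧ ¬ p (f^[i + 1] d) := by
  induction n with
  | zero => exact absurd h0 hn
  | succ n ih =>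
    by_cases h : p (f^[n] d)
    · exact ⟨n, h, hn⟩
    · exact ih h

section
variable {D V E F : Type} [Fintype D] [Fintype V] [Fintype E] [Fintype F] (M : PM D V E F)

theorem rch_symm (O : Finset V) {a b : V} (h : Rch M O a b) (ha : a ∉ O) :
    Rch M O b a ∧ b ∉ O := by
  induction h with
  | refl => exact ⟨Relation.ReflTransGen.refl, ha⟩
  | tail h1 h2 ih =>
    obtain ⟨ih1, ih2⟩ := ih
    obtain ⟨⟨d, hd1, hd2⟩, h4⟩ := h2
    refine ⟨Relation.ReflTransGen.head ⟨⟨M.α d, hd2, ?_⟩, ih2⟩ ih1, h4⟩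
    unfold tg
    rw [M.α_inv]
    exact hd1

theorem iterate_mem_bd (h1 : StmtNxt) (O : Finset V) {d : D} (hd : d ∈ bd M O) (i : ℕ) :
    (nxt M O)^[i] d ∈ bd M O := by
  induction i with
  | zero => exact hd
  | succ i ih =>
    rw [Function.iterate_succ_apply']
    exact (h1 D V E F M O).2.1 _ ih

end

/-- packet HALF -/
theorem half (h1 : StmtSol) (h2 : StmtNxt) : StmtHalf := by
  intro D V E F _ _ _ _ M O A hconn hne d hd e he hr hdA heA
  have hbd : ∀ x ∈ bd M O, Bd M O x := fun x hx => (Finset.mem_filter.1 hx).2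
  obtain ⟨n, hn⟩ := h1 D V E F M O hconn hne d hd e he hr
  obtain ⟨k, hk⟩ := h1 D V E F M O hconn hne e he d hd (rch_symm M O hr (hbd d hd).2.1).1
  obtain ⟨i, hi1, hi2⟩ := exists_change (nxt M O) (fun x => M.vt x ∈ A) n d hdA (by rwa [hn])
  obtain ⟨j, hj1, hj2⟩ := exists_change (nxt M O) (fun x => ¬ M.vt x ∈ A) k e heA
    (by rw [hk]; exact fun h => h hdA)
  have hx := iterate_mem_bd M h2 O hd i
  have hy := iterate_mem_bd M h2 O he j
  rw [Function.iterate_succ_apply'] at hi2 hj2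
  have hx2 := ((h2 D V E F M O).1 _ (hbd _ hx).2.1).1
  have hy2 := ((h2 D V E F M O).1 _ (hbd _ hy).2.1).1
  simp only [hx2] at hi2
  simp only [hy2, not_not] at hj2
  unfold hf
  rw [Nat.succ_le_iff, Finset.one_lt_card]
  refine ⟨_, Finset.mem_filter.2 ⟨hx, fun h => hi2 (h.1 hi1)⟩, _,
    Finset.mem_filter.2 ⟨hy, fun h => hj1 (h.2 hj2)⟩, fun h => ?_⟩
  apply hj1
  rw [← h]
  exact hi1

end Pool.Agent.Helper56.UB
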